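import Mathlib

/-!
# Derivations of a finite extension: uniqueness and trace
-/

set_option autoImplicit false

namespace Pool.Agent.Helper72.DAK

universe u

variable {k : Type u} {K : Type u} {L : Type u} [Field k] [Field K] [Field L] [CharZero K]
  [Algebra k K] [Algebra k L] [Algebra K L] [IsScalarTower k K L] [FiniteDimensional K L]

omit [IsScalarTower k K L] in
/-- a derivation of `L` which vanishes on `K` is zero -/
theorem der_zero (w : Derivation k L L) (h : ∀ a : K, w (algebraMap K L a) = 0) : w = 0 := by
  let w' : Derivation K L L := Derivation.mk'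
    { toFun := fun f => w f
      map_add' := fun f g => map_add w f g
      map_smul' := fun a f => by
        simp only [Algebra.smul_def, RingHom.id_apply]
        rw [Derivation.leibniz, h a]
        simp }
    (fun a b => w.leibniz a b)
  ext f
  have hs : (minpoly K f).Separable :=
    (minpoly.irreducible (Algebra.IsIntegral.isIntegral f)).separable
  have h1 : w' (Polynomial.aeval f (minpoly K f)) =
      Polynomial.aeval f (Polynomial.derivative (minpoly K f)) • w' f := w'.map_aeval _ f
  rw [minpoly.aeval, map_zero] at h1
  have h2 := hs.aeval_derivative_ne_zero (minpoly.aeval K f)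
  rcases smul_eq_zero.1 h1.symm with h3 | h3
  · exact absurd h3 h2
  · exact h3

omit [CharZero K] [IsScalarTower k K L] in
/-- the trace commutes with a lifted derivation -/
theorem trace_der (d : Derivation k K K) (D : Derivation k L L)
    (h : ∀ a : K, D (algebraMap K L a) = algebraMap K L (d a)) (f : L) :
    Algebra.trace K L (D f) = d (Algebra.trace K L f) := by
  classical
  let b := Module.finBasis K L
  let C : Matrix (Fin (Module.finrank K L)) (Fin (Module.finrank K L)) K :=
    fun l i => b.repr (D (b i)) l
  have hM : ∀ g l j, Algebra.leftMulMatrix b g l j = b.repr (g * b j) l := fun g l j =>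
    Algebra.leftMulMatrix_eq_repr_mul b g l j
  have hsm : ∀ (a : K) (g : L), D (a • g) = d a • g + a • D g := by
    intro a g
    rw [Algebra.smul_def, Derivation.leibniz, h]
    simp only [smul_eq_mul, Algebra.smul_def]
    ring
  have e1 : ∀ l j, Algebra.leftMulMatrix b (D f) l j = d (Algebra.leftMulMatrix b f l j) +
      (C * Algebra.leftMulMatrix b f) l j - (Algebra.leftMulMatrix b f * C) l j := by
    intro l j
    have h1 : D f * b j = D (f * b j) - f * D (b j) := by
      rw [Derivation.leibniz]
      simp only [smul_eq_mul]
      ring
    have h2 : D (f * b j) = ∑ i, (d (Algebra.leftMulMatrix b f i j) • b i +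
        Algebra.leftMulMatrix b f i j • D (b i)) := by
      conv_lhs => rw [← b.sum_repr (f * b j)]
      rw [map_sum]
      refine Finset.sum_congr rfl fun i _ => ?_
      rw [hsm, hM]
    have h3 : f * D (b j) = ∑ i, C i j • (f * b i) := by
      conv_lhs => rw [← b.sum_repr (D (b j))]
      rw [Finset.mul_sum]
      refine Finset.sum_congr rfl fun i _ => ?_
      rw [mul_smul_comm]
    rw [hM, h1, h2, h3, map_sub, map_sum, map_sum, Finsupp.sub_apply, Finsupp.finsetSum_apply,
      Finsupp.finsetSum_apply]
    congr 1
    · rw [Matrix.mul_apply]
      simp only [map_add, map_smul, Finsupp.add_apply, Finsupp.smul_apply, smul_eq_mul,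
        Finset.sum_add_distrib, Module.Basis.repr_self, Finsupp.single_apply, mul_ite, mul_one, mul_zero,
        Finset.sum_ite_eq', Finset.mem_univ, if_true]
      congr 1
      exact Finset.sum_congr rfl fun i _ => mul_comm _ _
    · rw [Matrix.mul_apply]
      refine Finset.sum_congr rfl fun i _ => ?_
      rw [map_smul, Finsupp.smul_apply, smul_eq_mul, hM, mul_comm]
  rw [Algebra.trace_eq_matrix_trace b, Algebra.trace_eq_matrix_trace b]
  unfold Matrix.trace
  simp only [Matrix.diag_apply]
  rw [map_sum, Finset.sum_congr rfl (fun j _ => e1 j j), Finset.sum_sub_distrib,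
    Finset.sum_add_distrib]
  have e2 : ∑ j, (C * Algebra.leftMulMatrix b f) j j = ∑ j, (Algebra.leftMulMatrix b f * C) j j := by
    have := Matrix.trace_mul_comm C (Algebra.leftMulMatrix b f)
    unfold Matrix.trace at this
    simpa only [Matrix.diag_apply] using this
  rw [e2]
  ring

/-- a derivation of `K` with values in `L` which kills the coordinates is zero -/
theorem der_coord {n : ℕ} (x : Fin n → K)
    (hu : ∀ e : Derivation k K K, (∀ i, e (x i) = 0) → e = 0)
    (w : Derivation k L L) (h : ∀ i, w (algebraMap K L (x i)) = 0) : w = 0 := by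
  refine der_zero (K := K) w fun a => ?_
  rw [← Module.forall_dual_apply_eq_zero_iff K]
  intro φ
  let e : Derivation k K K := Derivation.mk'
    ((φ.restrictScalars k) ∘ₗ (w : L →ₗ[k] L) ∘ₗ (IsScalarTower.toAlgHom k K L).toLinearMap)
    (fun a b => by
      simp only [LinearMap.comp_apply, LinearMap.coe_restrictScalars, AlgHom.toLinearMap_apply,
        IsScalarTower.coe_toAlgHom', Derivation.coeFn_coe, map_mul, Derivation.leibniz, map_add,
        smul_eq_mul]
      rw [← Algebra.smul_def, ← Algebra.smul_def, map_smul, map_smul]
      simp only [smul_eq_mul])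
  have he : e = 0 := hu e fun i => by
    show φ (w (algebraMap K L (x i))) = 0
    rw [h i, map_zero]
  have := congrArg (fun e : Derivation k K K => e a) he
  exact this

end Pool.Agent.Helper72.DAK
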