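import Mathlib

/-!
# Monomials in commuting derivations
-/

set_option autoImplicit false

namespace Pool.Agent.Helper72.DAK

open Finset

section opl

variable {ι : Type*} [DecidableEq ι] {k R : Type*} [CommRing k] [CommRing R] [Algebra k R]

/-- product of the powers, in the order of the list -/
def opl (d : ι → Derivation k R R) (l : List ι) (α : ι → ℕ) (y : R) : R :=
  l.foldr (fun i z => (d i)^[α i] z) y

omit [DecidableEq ι] in
theorem opl_cons (d : ι → Derivation k R R) (i : ι) (l : List ι) (α : ι → ℕ) (y : R) :
    opl d (i :: l) α y = (d i)^[α i] (opl d l α y) := rfl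

omit [DecidableEq ι] in
theorem opl_zero (d : ι → Derivation k R R) (l : List ι) (y : R) : opl d l 0 y = y := by
  induction l with
  | nil => rfl
  | cons i l ih =>
    rw [opl_cons, ih]
    rfl

omit [DecidableEq ι] in
theorem opl_comm (d : ι → Derivation k R R) (j : ι)
    (hc : ∀ i, Function.Commute (d i) (d j)) (l : List ι) (α : ι → ℕ) (y : R) :
    opl d l α (d j y) = d j (opl d l α y) := by
  induction l with
  | nil => rfl
  | cons i l ih =>
    rw [opl_cons, opl_cons, ih]
    exact ((hc i).iterate_left (α i)) _

omit [DecidableEq ι] in
theorem opl_map_add (d : ι → Derivation k R R) (l : List ι) (α : ι → ℕ) (y z : R) :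
    opl d l α (y + z) = opl d l α y + opl d l α z := by
  induction l with
  | nil => rfl
  | cons i l ih => rw [opl_cons, opl_cons, opl_cons, ih, iterate_map_add]

theorem opl_add (d : ι → Derivation k R R) (j : ι)
    (hc : ∀ i, Function.Commute (d i) (d j)) (l : List ι) (hl : l.Nodup) (α : ι → ℕ) (y : R) :
    opl d l (α + Pi.single j 1) y = if j ∈ l then d j (opl d l α y) else opl d l α y := by
  induction l with
  | nil => simp [opl]
  | cons i l ih =>
    have hn := List.nodup_cons.1 hl
    rw [opl_cons, ih hn.2]
    by_cases hij : i = j
    · subst hij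
      rw [if_neg hn.1, if_pos (List.mem_cons_self), opl_cons]
      simp only [Pi.add_apply, Pi.single_eq_same]
      rw [Function.iterate_succ_apply']
    · have h1 : (α + Pi.single j 1 : ι → ℕ) i = α i := by
        simp [Pi.single_eq_of_ne hij]
      rw [h1]
      by_cases hj : j ∈ l
      · rw [if_pos hj, if_pos (List.mem_cons_of_mem _ hj), opl_cons]
        exact ((hc i).iterate_left (α i)) _
      · rw [if_neg hj, if_neg, opl_cons]
        rw [List.mem_cons]
        push Not
        exact ⟨fun h => hij h.symm, hj⟩

omit [DecidableEq ι] in
theorem iter_x (e : Derivation k R R) (X : R) (hX : e X = 1) (m : ℕ) (y : R) :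
    e^[m] (X * y) = X * e^[m] y + m * e^[m - 1] y := by
  induction m with
  | zero => simp
  | succ m ih =>
    rw [Function.iterate_succ_apply', ih, map_add, Derivation.leibniz, Derivation.leibniz, hX]
    simp only [smul_eq_mul, Derivation.map_natCast, mul_zero, add_zero, mul_one]
    rw [Function.iterate_succ_apply']
    rcases m with _ | m
    · simp
    · simp only [Nat.add_sub_cancel]
      rw [Function.iterate_succ_apply']
      push_cast
      ring

omit [DecidableEq ι] in
theorem iter_x0 (e : Derivation k R R) (X : R) (hX : e X = 0) (m : ℕ) (y : R) :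
    e^[m] (X * y) = X * e^[m] y := by
  induction m with
  | zero => simp
  | succ m ih =>
    rw [Function.iterate_succ_apply', ih, Derivation.leibniz, hX, Function.iterate_succ_apply']
    simp

omit [DecidableEq ι] in
theorem iter_nat (e : Derivation k R R) (c m : ℕ) (y : R) :
    e^[m] ((c : R) * y) = (c : R) * e^[m] y := by
  induction m with
  | zero => simp
  | succ m ih =>
    rw [Function.iterate_succ_apply', ih, Derivation.leibniz, Derivation.map_natCast,
      Function.iterate_succ_apply']
    simp

theorem opl_x (d : ι → Derivation k R R) (X : ι → R)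
    (hX : ∀ i j, d i (X j) = if i = j then 1 else 0) (j : ι) (l : List ι) (hl : l.Nodup)
    (α : ι → ℕ) (y : R) : opl d l α (X j * y) = X j * opl d l α y +
      if j ∈ l then (α j : R) * opl d l (α - Pi.single j 1) y else 0 := by
  induction l with
  | nil => simp [opl]
  | cons i l ih =>
    have hn := List.nodup_cons.1 hl
    rw [opl_cons, ih hn.2]
    by_cases hij : i = j
    · subst hij
      rw [if_neg hn.1, add_zero, iter_x (d i) (X i) (by simp [hX]), if_pos List.mem_cons_self,
        opl_cons, opl_cons]
      congr 2
      have h1 : opl d l (α - Pi.single i 1) y = opl d l α y := by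
        have h2 : ∀ l' : List ι, i ∉ l' → opl d l' (α - Pi.single i 1) y = opl d l' α y := by
          intro l' hl'
          induction l' with
          | nil => rfl
          | cons a l' ih' =>
            rw [List.mem_cons] at hl'
            push Not at hl'
            rw [opl_cons, opl_cons, ih' hl'.2]
            have : (α - Pi.single i 1 : ι → ℕ) a = α a := by
              simp [Pi.single_eq_of_ne (Ne.symm hl'.1)]
            rw [this]
        exact h2 l hn.1
      rw [h1]
      have h3 : (α - Pi.single i 1 : ι → ℕ) i = α i - 1 := by simp
      rw [h3]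
    · have hXi : d i (X j) = 0 := by rw [hX, if_neg hij]
      have h1 : (α - Pi.single j 1 : ι → ℕ) i = α i := by
        simp [Pi.single_eq_of_ne hij]
      rw [iterate_map_add, iter_x0 _ _ hXi, opl_cons]
      congr 1
      by_cases hj : j ∈ l
      · rw [if_pos hj, if_pos (List.mem_cons_of_mem _ hj), iter_nat, opl_cons, h1]
      · rw [if_neg hj, if_neg, iterate_map_zero]
        rw [List.mem_cons]
        push Not
        exact ⟨fun h => hij h.symm, hj⟩

end opl

section op

variable {n : ℕ} {k R : Type*} [CommRing k] [CommRing R] [Algebra k R]

/-- monomial in the derivations -/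
def op (d : Fin n → Derivation k R R) (α : Fin n → ℕ) (y : R) : R := opl d (List.finRange n) α y

theorem op_zero (d : Fin n → Derivation k R R) (y : R) : op d 0 y = y := opl_zero _ _ _

theorem op_map_add (d : Fin n → Derivation k R R) (α : Fin n → ℕ) (y z : R) :
    op d α (y + z) = op d α y + op d α z := opl_map_add _ _ _ _ _

theorem op_comm (d : Fin n → Derivation k R R) (hc : ∀ i j, Function.Commute (d i) (d j))
    (j : Fin n) (α : Fin n → ℕ) (y : R) : op d α (d j y) = d j (op d α y) :=
  opl_comm d j (fun i => hc i j) _ _ _

theorem op_succ (d : Fin n → Derivation k R R) (hc : ∀ i j, Function.Commute (d i) (d j))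
    (j : Fin n) (α : Fin n → ℕ) (y : R) : op d (α + Pi.single j 1) y = d j (op d α y) := by
  have h := opl_add d j (fun i => hc i j) (List.finRange n) (List.nodup_finRange n) α y
  rw [if_pos (List.mem_finRange j)] at h
  exact h

theorem op_x (d : Fin n → Derivation k R R) (X : Fin n → R)
    (hX : ∀ i j, d i (X j) = if i = j then 1 else 0) (j : Fin n)
    (α : Fin n → ℕ) (y : R) : op d α (X j * y) = X j * op d α y +
      (α j : R) * op d (α - Pi.single j 1) y := by
  have h := opl_x d X hX j (List.finRange n) (List.nodup_finRange n) α y
  rw [if_pos (List.mem_finRange j)] at h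
  exact h

end op

/-- the monomials are linearly independent over the field -/
theorem op_indep {n : ℕ} {k K : Type*} [CommRing k] [Field K] [CharZero K] [Algebra k K]
    (d : Fin n → Derivation k K K) (X : Fin n → K)
    (hX : ∀ i j, d i (X j) = if i = j then 1 else 0) (N : ℕ) :
    ∀ (s : Finset (Fin n → ℕ)) (p : (Fin n → ℕ) → K), (∀ α ∈ s, ∑ i, α i ≤ N) →
      (∀ y, ∑ α ∈ s, p α * op d α y = 0) → ∀ α ∈ s, p α = 0 := by
  classical
  induction N with
  | zero =>
    intro s p hs hp α hα
    have h0 : ∀ β ∈ s, β = 0 := by
      intro β hβ
      have := hs β hβ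
      funext i
      have h1 : β i ≤ ∑ i, β i := Finset.single_le_sum (fun _ _ => Nat.zero_le _) (mem_univ i)
      simp only [Pi.zero_apply]
      omega
    have h1 : s = {0} := by
      ext β
      rw [mem_singleton]
      exact ⟨h0 β, fun h => h ▸ (h0 α hα) ▸ hα⟩
    have h2 := hp 1
    rw [h1, sum_singleton, op_zero, mul_one] at h2
    rw [h0 α hα]
    exact h2
  | succ N ih =>
    intro s p hs hp
    have key : ∀ α ∈ s, ∀ j, 0 < α j → p α = 0 := by
      intro j0 hj0 j hj
      obtain ⟨t, et⟩ : ∃ t, t = s.filter (fun α => 0 < α j) := ⟨_, rfl⟩
      obtain ⟨s', es'⟩ : ∃ s', s' = t.image (fun α => α - Pi.single j 1) := ⟨_, rfl⟩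
      have hback : ∀ α ∈ t, (α - Pi.single j 1) + Pi.single j 1 = α := by
        intro α hα
        rw [et, mem_filter] at hα
        funext i
        by_cases hi : i = j
        · subst hi
          simp only [Pi.add_apply, Pi.sub_apply, Pi.single_eq_same]
          omega
        · simp [Pi.single_eq_of_ne hi]
      have hinj : Set.InjOn (fun α : Fin n → ℕ => α - Pi.single j 1) t := by
        intro α hα β hβ h
        rw [← hback α hα, ← hback β hβ]
        exact congrArg (· + Pi.single j 1) h
      have h1 := ih s' (fun γ => ((γ j : K) + 1) * p (γ + Pi.single j 1)) ?_ ?_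
        (j0 - Pi.single j 1) ?_
      · have hm : j0 ∈ t := by
          rw [et, mem_filter]
          exact ⟨hj0, hj⟩
        simp only [hback j0 hm] at h1
        rcases mul_eq_zero.1 h1 with h2 | h2
        · exact absurd h2 (Nat.cast_add_one_ne_zero _)
        · exact h2
      · intro γ hγ
        rw [es', mem_image] at hγ
        obtain ⟨α, hα, rfl⟩ := hγ
        have h2 := hback α hα
        rw [et, mem_filter] at hα
        have h3 := hs α hα.1
        have h4 : ∑ i, α i = ∑ i, (α - Pi.single j 1 : Fin n → ℕ) i + 1 := by
          conv_lhs => rw [← h2]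
          simp [Finset.sum_add_distrib]
        omega
      · intro y
        rw [es', sum_image hinj]
        have h2 := hp (X j * y)
        have h3 := hp y
        have h4 : ∑ α ∈ s, p α * ((α j : K) * op d (α - Pi.single j 1) y) = 0 := by
          have h5 : ∑ α ∈ s, p α * op d α (X j * y) = X j * ∑ α ∈ s, p α * op d α y +
              ∑ α ∈ s, p α * ((α j : K) * op d (α - Pi.single j 1) y) := by
            rw [mul_sum, ← sum_add_distrib]
            refine sum_congr rfl fun α _ => ?_
            rw [op_x d X hX]
            ring
          rw [h2, h3, mul_zero, zero_add] at h5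
          exact h5.symm
        have h6 : ∑ α ∈ s, p α * ((α j : K) * op d (α - Pi.single j 1) y) =
            ∑ α ∈ t, p α * ((α j : K) * op d (α - Pi.single j 1) y) := by
          rw [et, sum_filter]
          refine sum_congr rfl fun α _ => ?_
          split_ifs with h7
          · rfl
          · have : α j = 0 := by omega
            rw [this]
            simp
        rw [h6] at h4
        rw [← h4]
        refine sum_congr rfl fun α hα => ?_
        rw [hback α hα]
        have h7 : (((α - Pi.single j 1 : Fin n → ℕ) j : ℕ) : K) + 1 = (α j : K) := by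
          rw [et, mem_filter] at hα
          simp only [Pi.sub_apply, Pi.single_eq_same]
          have : 1 ≤ α j := hα.2
          push_cast [Nat.cast_sub this]
          ring
        rw [h7]
        ring
      · rw [es', mem_image]
        exact ⟨j0, by rw [et, mem_filter]; exact ⟨hj0, hj⟩, rfl⟩
    intro α hα
    by_cases h0 : α = 0
    · have h1 : ∑ β ∈ s, p β * op d β 1 = p α := by
        rw [sum_eq_single_of_mem α hα]
        · rw [h0, op_zero, mul_one]
        · intro β hβ hne
          have : ∃ j, β j ≠ 0 := by
            by_contra hc
            push Not at hc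
            exact hne (h0 ▸ funext hc)
          obtain ⟨j, hj⟩ := this
          rw [key β hβ j (by omega), zero_mul]
      rw [hp 1] at h1
      exact h1.symm
    · have : ∃ j, α j ≠ 0 := by
        by_contra hc
        push Not at hc
        exact h0 (funext hc)
      obtain ⟨j, hj⟩ := this
      exact key α hα j (by omega)

end Pool.Agent.Helper72.DAK
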