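import Pool.Agent.Helper72.DAK.Der
import Pool.Agent.Helper72.DAK.Op

/-!
# Traces of elements killed by a derivation

`K` a field with commuting derivations `d i` dual to `x i`, `L` a finite extension, `v` a nonzero
derivation of `L`.  The traces of the elements killed by `v` do not contain a subring of `K` with
fraction field `K`.
-/

set_option autoImplicit false

namespace Pool.Agent.Helper72.DAK

open Finset

universe u

/-- no nonzero derivation of `L` kills elements with all traces -/
def ST_FLD : Prop := ∀ {k : Type u} {K : Type u} {L : Type u} [Field k] [Field K] [Field L]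
  [CharZero K] [Algebra k K] [Algebra k L] [Algebra K L] [IsScalarTower k K L]
  [FiniteDimensional K L] (n : ℕ) (x : Fin n → K) (d : Fin n → Derivation k K K)
  (D : Fin n → Derivation k L L), (∀ i j, d i (x j) = if i = j then 1 else 0) →
  (∀ e : Derivation k K K, (∀ i, e (x i) = 0) → e = 0) →
  (∀ i a, D i (algebraMap K L a) = algebraMap K L (d i a)) →
  ∀ v : Derivation k L L, v ≠ 0 → ∀ A : Subring K,
  (∀ z : K, ∃ a ∈ A, ∃ b ∈ A, b ≠ 0 ∧ z * b = a) →
  ∃ a ∈ A, ∀ f : L, v f = 0 → Algebra.trace K L f ≠ a

/-! ### operators which kill a subring -/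

/-- differential operator of order less than `m` -/
def Ord {K : Type*} [Field K] : ℕ → (K → K) → Prop
  | 0, P => ∀ y, P y = 0
  | m + 1, P => ∀ a, Ord m (fun y => P (a * y) - a * P y)

section ord

variable {k K : Type*} [Field k] [Field K] [Algebra k K]

omit [Field k] [Algebra k K] in
theorem ord_succ (m : ℕ) : ∀ P : K → K, Ord m P → Ord (m + 1) P := by
  induction m with
  | zero =>
    intro P h a y
    have h' : ∀ y, P y = 0 := h
    show P (a * y) - a * P y = 0
    rw [h', h']
    simp
  | succ m ih =>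
    intro P h a
    exact ih _ (h a)

omit [Field k] [Algebra k K] in
theorem ord_le {m m' : ℕ} (h : m ≤ m') (P : K → K) (hP : Ord m P) : Ord m' P := by
  induction m', h using Nat.le_induction with
  | base => exact hP
  | succ m' _ ih => exact ord_succ _ _ ih

omit [Field k] [Algebra k K] in
theorem ord_add (m : ℕ) : ∀ P Q : K → K, Ord m P → Ord m Q → Ord m (fun y => P y + Q y) := by
  induction m with
  | zero =>
    intro P Q hP hQ y
    have h1 : ∀ y, P y = 0 := hP
    have h2 : ∀ y, Q y = 0 := hQ
    show P y + Q y = 0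
    rw [h1, h2, add_zero]
  | succ m ih =>
    intro P Q hP hQ a
    have h := ih _ _ (hP a) (hQ a)
    have e : (fun y => P (a * y) + Q (a * y) - a * (P y + Q y)) =
        fun y => (P (a * y) - a * P y) + (Q (a * y) - a * Q y) := by
      funext y
      ring
    show Ord m (fun y => P (a * y) + Q (a * y) - a * (P y + Q y))
    rw [e]
    exact h

omit [Field k] [Algebra k K] in
theorem ord_smul (c : K) (m : ℕ) : ∀ P : K → K, Ord m P → Ord m (fun y => c * P y) := by
  induction m with
  | zero =>
    intro P hP y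
    have h1 : ∀ y, P y = 0 := hP
    show c * P y = 0
    rw [h1, mul_zero]
  | succ m ih =>
    intro P hP a
    have h := ih _ (hP a)
    have e : (fun y => c * P (a * y) - a * (c * P y)) =
        fun y => c * (P (a * y) - a * P y) := by
      funext y
      ring
    show Ord m (fun y => c * P (a * y) - a * (c * P y))
    rw [e]
    exact h

theorem ord_der (d : Derivation k K K) (m : ℕ) :
    ∀ P : K → K, Ord m P → Ord (m + 1) (fun y => d (P y)) := by
  induction m with
  | zero =>
    intro P hP a y
    have h1 : ∀ y, P y = 0 := hP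
    show d (P (a * y)) - a * d (P y) = 0
    rw [h1, h1]
    simp
  | succ m ih =>
    intro P hP a
    have h := ord_add (m + 1) _ _ (ih _ (hP a)) (ord_smul (d a) (m + 1) P hP)
    have e : (fun y => d (P (a * y)) - a * d (P y)) =
        fun y => d (P (a * y) - a * P y) + d a * P y := by
      funext y
      rw [map_sub, Derivation.leibniz]
      simp only [smul_eq_mul]
      ring
    show Ord (m + 1) (fun y => d (P (a * y)) - a * d (P y))
    rw [e]
    exact h

theorem ord_opl {ι : Type*} (d : ι → Derivation k K K) (l : List ι) (α : ι → ℕ) :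
    ∃ m, Ord m (opl d l α) := by
  induction l with
  | nil =>
    refine ⟨1, fun a y => ?_⟩
    show a * y - a * y = 0
    ring
  | cons i l ih =>
    obtain ⟨m, hm⟩ := ih
    have h : ∀ N : ℕ, Ord (m + N) (fun y => (d i)^[N] (opl d l α y)) := by
      intro N
      induction N with
      | zero => exact hm
      | succ N ihN =>
        have h := ord_der (d i) (m + N) _ ihN
        have e : (fun y => (d i)^[N + 1] (opl d l α y)) =
            fun y => d i ((d i)^[N] (opl d l α y)) := by
          funext y
          rw [Function.iterate_succ_apply']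
        rw [e]
        exact h
    exact ⟨m + α i, h (α i)⟩

theorem ord_sum {n : ℕ} (d : Fin n → Derivation k K K) (s : Finset (Fin n → ℕ))
    (p : (Fin n → ℕ) → K) : ∃ m, Ord m (fun y => ∑ α ∈ s, p α * op d α y) := by
  classical
  induction s using Finset.induction_on with
  | empty => exact ⟨0, fun y => by simp⟩
  | insert β s hβ ih =>
    obtain ⟨m, hm⟩ := ih
    obtain ⟨m', hm'⟩ := ord_opl d (List.finRange n) β
    refine ⟨max m m', ?_⟩
    have h := ord_add (max m m') _ _ (ord_le (le_max_right m m') _ (ord_smul (p β) m' _ hm'))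
      (ord_le (le_max_left m m') _ hm)
    have e : (fun y => ∑ α ∈ insert β s, p α * op d α y) =
        fun y => p β * opl d (List.finRange n) β y + ∑ α ∈ s, p α * op d α y := by
      funext y
      rw [sum_insert hβ]
      rfl
    rw [e]
    exact h

omit [Field k] [Algebra k K] in
theorem ord_kill (A : Subring K) (hA : ∀ z : K, ∃ a ∈ A, ∃ b ∈ A, b ≠ 0 ∧ z * b = a) (m : ℕ) :
    ∀ P : K → K, Ord m P → (∀ a ∈ A, P a = 0) → ∀ y, P y = 0 := by
  induction m with
  | zero =>
    intro P hP _ y
    exact hP y
  | succ m ih =>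
    intro P hP hk y
    have h1 : ∀ a ∈ A, ∀ y, P (a * y) = a * P y := by
      intro a ha y
      have h2 := ih _ (hP a) (fun b hb => by
        show P (a * b) - a * P b = 0
        rw [hk _ (A.mul_mem ha hb), hk _ hb]
        simp) y
      exact sub_eq_zero.1 h2
    obtain ⟨a, ha, b, hb, hb0, hab⟩ := hA y
    have h3 : b * P y = 0 := by
      rw [← h1 b hb y, mul_comm b y, hab]
      exact hk a ha
    rcases mul_eq_zero.1 h3 with h4 | h4
    · exact absurd h4 hb0
    · exact h4

end ord

/-! ### operators restricted to the kernel of `v` -/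

section span

variable {n : ℕ} {k L : Type*} [Field k] [Field L] [Algebra k L]

/-- combinations of monomials without `D i0` -/
def TT (D : Fin n → Derivation k L L) (i0 : Fin n) (j : ℕ) : Submodule L (L → L) :=
  Submodule.span L {T | ∃ β : Fin n → ℕ, β i0 = 0 ∧ ∑ i, β i ≤ j ∧ T = op D β}

theorem TT_mono (D : Fin n → Derivation k L L) (i0 : Fin n) {j j' : ℕ} (h : j ≤ j') :
    TT D i0 j ≤ TT D i0 j' := by
  unfold TT
  refine Submodule.span_mono ?_
  rintro T ⟨β, h1, h2, h3⟩
  exact ⟨β, h1, h2.trans h, h3⟩

theorem sum_succ (β : Fin n → ℕ) (i : Fin n) :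
    ∑ l, (β + Pi.single i 1 : Fin n → ℕ) l = ∑ l, β l + 1 := by
  simp [Finset.sum_add_distrib]

theorem TT_der (D : Fin n → Derivation k L L) (i0 : Fin n)
    (hc : ∀ i j, Function.Commute (D i) (D j)) {i : Fin n} (hi : i ≠ i0) {j : ℕ} {T : L → L}
    (hT : T ∈ TT D i0 j) : (fun f => D i (T f)) ∈ TT D i0 (j + 1) := by
  unfold TT at hT
  induction hT using Submodule.span_induction with
  | mem T hT =>
    obtain ⟨β, h1, h2, rfl⟩ := hT
    refine Submodule.subset_span ⟨β + Pi.single i 1, ?_, ?_, ?_⟩
    · simp [h1, Pi.single_eq_of_ne (Ne.symm hi)]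
    · rw [sum_succ]
      omega
    · funext f
      exact (op_succ D hc i β f).symm
  | zero =>
    have : (fun f => D i ((0 : L → L) f)) = 0 := by
      funext f
      simp
    rw [this]
    exact Submodule.zero_mem _
  | add S T _ _ hS hT =>
    have : (fun f => D i ((S + T) f)) = (fun f => D i (S f)) + fun f => D i (T f) := by
      funext f
      simp
    rw [this]
    exact Submodule.add_mem _ hS hT
  | smul g T hT' hT =>
    have : (fun f => D i ((g • T) f)) = D i g • T + g • fun f => D i (T f) := by
      funext f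
      simp only [Pi.smul_apply, Pi.add_apply, smul_eq_mul, Derivation.leibniz]
      ring
    rw [this]
    exact Submodule.add_mem _ (Submodule.smul_mem _ _ (TT_mono D i0 (Nat.le_succ _) hT'))
      (Submodule.smul_mem _ _ hT)

theorem TT_right (D : Fin n → Derivation k L L) (i0 : Fin n)
    (hc : ∀ i j, Function.Commute (D i) (D j)) {i : Fin n} (hi : i ≠ i0) {j : ℕ} {T : L → L}
    (hT : T ∈ TT D i0 j) : (fun f => T (D i f)) ∈ TT D i0 (j + 1) := by
  unfold TT at hT
  induction hT using Submodule.span_induction with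
  | mem T hT =>
    obtain ⟨β, h1, h2, rfl⟩ := hT
    refine Submodule.subset_span ⟨β + Pi.single i 1, ?_, ?_, ?_⟩
    · simp [h1, Pi.single_eq_of_ne (Ne.symm hi)]
    · rw [sum_succ]
      omega
    · funext f
      rw [op_comm D hc, ← op_succ D hc]
  | zero =>
    have : (fun f => (0 : L → L) (D i f)) = 0 := by
      funext f
      simp
    rw [this]
    exact Submodule.zero_mem _
  | add S T _ _ hS hT =>
    have : (fun f => (S + T) (D i f)) = (fun f => S (D i f)) + fun f => T (D i f) := by
      funext f
      simp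
    rw [this]
    exact Submodule.add_mem _ hS hT
  | smul g T hT' hT =>
    have : (fun f => (g • T) (D i f)) = g • fun f => T (D i f) := by
      funext f
      simp
    rw [this]
    exact Submodule.smul_mem _ _ hT

theorem exists_pred (α : Fin n → ℕ) (N : ℕ) (h : ∑ i, α i = N + 1) :
    ∃ (i : Fin n) (γ : Fin n → ℕ), α = γ + Pi.single i 1 ∧ ∑ l, γ l = N := by
  have h1 : ∃ i, α i ≠ 0 := by
    by_contra hc
    push Not at hc
    simp [hc] at h
  obtain ⟨i, hi⟩ := h1
  have h2 : α = (α - Pi.single i 1 : Fin n → ℕ) + Pi.single i 1 := by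
    funext l
    by_cases hl : l = i
    · subst hl
      simp only [Pi.add_apply, Pi.sub_apply, Pi.single_eq_same]
      omega
    · simp [Pi.single_eq_of_ne hl]
  refine ⟨i, α - Pi.single i 1, h2, ?_⟩
  have h3 := sum_succ (α - Pi.single i 1 : Fin n → ℕ) i
  rw [← h2] at h3
  omega

theorem TT_mul (D : Fin n → Derivation k L L) (i0 : Fin n)
    (hc : ∀ i j, Function.Commute (D i) (D j)) (h : L) (N : ℕ) :
    ∀ β : Fin n → ℕ, β i0 = 0 → ∑ i, β i = N → (fun f => op D β (h * f)) ∈ TT D i0 N := by
  induction N with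
  | zero =>
    intro β _ hN
    have h0 : β = 0 := by
      funext i
      have h1 : β i ≤ ∑ i, β i := Finset.single_le_sum (fun _ _ => Nat.zero_le _) (mem_univ i)
      simp only [Pi.zero_apply]
      omega
    have h1 : (fun f => op D β (h * f)) = h • op D 0 := by
      funext f
      rw [h0, Pi.smul_apply, op_zero, op_zero, smul_eq_mul]
    rw [h1]
    exact Submodule.smul_mem _ _ (Submodule.subset_span ⟨0, rfl, by simp, rfl⟩)
  | succ N ih =>
    intro β hβ hN
    obtain ⟨i, γ, rfl, hγ⟩ := exists_pred β N hN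
    have hi : i ≠ i0 := by
      rintro rfl
      simp at hβ
    have hγ0 : γ i0 = 0 := by
      simpa [Pi.single_eq_of_ne (Ne.symm hi)] using hβ
    have h1 := TT_der D i0 hc hi (ih γ hγ0 hγ)
    have h2 : (fun f => op D (γ + Pi.single i 1) (h * f)) = fun f => D i (op D γ (h * f)) := by
      funext f
      rw [op_succ D hc]
    rw [h2]
    exact h1

theorem op_sum (D : Fin n → Derivation k L L) (β : Fin n → ℕ) (s : Finset (Fin n)) (g : Fin n → L) :
    op D β (∑ l ∈ s, g l) = ∑ l ∈ s, op D β (g l) :=
  map_sum (AddMonoidHom.mk' (op D β) (op_map_add D β)) g s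

theorem TT_i0 (D : Fin n → Derivation k L L) (i0 : Fin n)
    (hc : ∀ i j, Function.Commute (D i) (D j)) (v : Derivation k L L) (h : Fin n → L)
    (hrel : ∀ f, v f = 0 → D i0 f = ∑ l ∈ univ.erase i0, h l * D l f) {j : ℕ} {T : L → L}
    (hT : T ∈ TT D i0 j) :
    ∃ T' ∈ TT D i0 (j + 1), ∀ f, v f = 0 → D i0 (T f) = T' f := by
  unfold TT at hT
  induction hT using Submodule.span_induction with
  | mem T hT =>
    obtain ⟨β, h1, h2, rfl⟩ := hT
    refine ⟨∑ l ∈ univ.erase i0, (fun f => op D β (h l * D l f)), ?_, ?_⟩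
    · refine Submodule.sum_mem _ fun l hl => ?_
      have hl0 : l ≠ i0 := (mem_erase.1 hl).1
      have h3 := TT_right D i0 hc hl0 (TT_mul D i0 hc (h l) _ β h1 rfl)
      exact TT_mono D i0 (by omega) h3
    · intro f hf
      rw [← op_comm D hc, hrel f hf, op_sum, Finset.sum_apply]
  | zero => exact ⟨0, Submodule.zero_mem _, fun f _ => by simp⟩
  | add S T _ _ hS hT =>
    obtain ⟨S', hS', hS''⟩ := hS
    obtain ⟨T', hT', hT''⟩ := hT
    refine ⟨S' + T', Submodule.add_mem _ hS' hT', fun f hf => ?_⟩
    rw [Pi.add_apply, Pi.add_apply, map_add, hS'' f hf, hT'' f hf]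
  | smul g T hT0 hT =>
    obtain ⟨T', hT', hT''⟩ := hT
    refine ⟨D i0 g • T + g • T', Submodule.add_mem _
      (Submodule.smul_mem _ _ (TT_mono D i0 (Nat.le_succ _) hT0))
      (Submodule.smul_mem _ _ hT'), fun f hf => ?_⟩
    simp only [Pi.smul_apply, Pi.add_apply, smul_eq_mul, Derivation.leibniz]
    rw [hT'' f hf]
    ring

theorem TT_op (D : Fin n → Derivation k L L) (i0 : Fin n)
    (hc : ∀ i j, Function.Commute (D i) (D j)) (v : Derivation k L L) (h : Fin n → L)
    (hrel : ∀ f, v f = 0 → D i0 f = ∑ l ∈ univ.erase i0, h l * D l f) (N : ℕ) :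
    ∀ α : Fin n → ℕ, ∑ i, α i = N → ∃ T ∈ TT D i0 N, ∀ f, v f = 0 → op D α f = T f := by
  induction N with
  | zero =>
    intro α hN
    have h0 : α = 0 := by
      funext i
      have h1 : α i ≤ ∑ i, α i := Finset.single_le_sum (fun _ _ => Nat.zero_le _) (mem_univ i)
      simp only [Pi.zero_apply]
      omega
    exact ⟨op D α, Submodule.subset_span ⟨α, by rw [h0]; rfl, hN.le, rfl⟩, fun f _ => rfl⟩
  | succ N ih =>
    intro α hN
    obtain ⟨i, γ, rfl, hγ⟩ := exists_pred α N hN
    obtain ⟨T, hT, hT'⟩ := ih γ hγ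
    by_cases hi : i = i0
    · subst hi
      obtain ⟨T', h1, h2⟩ := TT_i0 D i hc v h hrel hT
      refine ⟨T', h1, fun f hf => ?_⟩
      rw [op_succ D hc, hT' f hf, h2 f hf]
    · refine ⟨fun f => D i (T f), TT_der D i0 hc hi hT, fun f hf => ?_⟩
      rw [op_succ D hc, hT' f hf]

/-- extension of a multi-index by zero at `i0` -/
def ext0 {b : ℕ} (i0 : Fin n) (β : {i : Fin n // i ≠ i0} → Fin (b + 1)) (i : Fin n) : ℕ :=
  if h : i ≠ i0 then (β ⟨i, h⟩ : ℕ) else 0

/-- the monomials restricted to the kernel of `v` -/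
def uu (D : Fin n → Derivation k L L) (v : Derivation k L L) (i0 : Fin n) (b : ℕ)
    (β : {i : Fin n // i ≠ i0} → Fin (b + 1)) : {f : L // v f = 0} → L :=
  fun f => op D (ext0 i0 β) f

theorem TT_res (D : Fin n → Derivation k L L) (v : Derivation k L L) (i0 : Fin n) (b : ℕ)
    {T : L → L} (hT : T ∈ TT D i0 b) :
    (fun f : {f : L // v f = 0} => T f) ∈ Submodule.span L (Set.range (uu D v i0 b)) := by
  unfold TT at hT
  induction hT using Submodule.span_induction with
  | mem T hT =>
    obtain ⟨β, h1, h2, rfl⟩ := hT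
    have hb : ∀ i, β i < b + 1 := by
      intro i
      have h3 : β i ≤ ∑ i, β i := Finset.single_le_sum (fun _ _ => Nat.zero_le _) (mem_univ i)
      omega
    refine Submodule.subset_span ⟨fun i => ⟨β i, hb i⟩, ?_⟩
    funext f
    unfold uu
    congr 1
    funext i
    unfold ext0
    split_ifs with h
    · rfl
    · push Not at h
      rw [h, h1]
  | zero => exact Submodule.zero_mem _
  | add S T _ _ hS hT => exact Submodule.add_mem _ hS hT
  | smul g T _ hT => exact Submodule.smul_mem _ _ hT

end span

theorem count_lt (n d m : ℕ) (hn : 1 ≤ n) (hm : m = d * n ^ n) :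
    d * (n * m + 1) ^ (n - 1) < (m + 1) ^ n := by
  obtain ⟨N, rfl⟩ : ∃ N, n = N + 1 := ⟨n - 1, by omega⟩
  rw [Nat.add_sub_cancel]
  have h1 : (N + 1) * m + 1 ≤ (N + 1) * (m + 1) := by nlinarith
  have h2 : ((N + 1) * m + 1) ^ N ≤ (N + 1) ^ N * (m + 1) ^ N := by
    rw [← mul_pow]
    exact Nat.pow_le_pow_left h1 N
  have h3 : d * (N + 1) ^ N ≤ m := by
    rw [hm, pow_succ (N + 1) N, ← mul_assoc]
    exact Nat.le_mul_of_pos_right _ (by omega)
  have h4 : 0 < (m + 1) ^ N := by positivity
  calc d * ((N + 1) * m + 1) ^ N ≤ d * ((N + 1) ^ N * (m + 1) ^ N) := Nat.mul_le_mul_left _ h2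
    _ = d * (N + 1) ^ N * (m + 1) ^ N := by ring
    _ ≤ m * (m + 1) ^ N := Nat.mul_le_mul_right _ h3
    _ < (m + 1) * (m + 1) ^ N := by nlinarith
    _ = (m + 1) ^ (N + 1) := by ring

theorem opl_lift {ι : Type*} {k K L : Type*} [Field k] [Field K] [Field L] [Algebra k K]
    [Algebra k L] [Algebra K L] [FiniteDimensional K L] (d : ι → Derivation k K K)
    (D : ι → Derivation k L L) (h : ∀ i (f : L), Algebra.trace K L (D i f) = d i (Algebra.trace K L f))
    (l : List ι) (α : ι → ℕ) (f : L) :
    Algebra.trace K L (opl D l α f) = opl d l α (Algebra.trace K L f) := by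
  induction l with
  | nil => rfl
  | cons i l ih =>
    have h1 : ∀ (N : ℕ) (g : L), Algebra.trace K L ((D i)^[N] g) = (d i)^[N] (Algebra.trace K L g) := by
      intro N g
      induction N with
      | zero => rfl
      | succ N ihN => rw [Function.iterate_succ_apply', Function.iterate_succ_apply', h, ihN]
    rw [opl_cons, opl_cons, h1, ih]

theorem der_sum {n : ℕ} {k L : Type*} [Field k] [Field L] [Algebra k L]
    (E : Fin n → Derivation k L L) (f : L) : (∑ i, E i) f = ∑ i, E i f := by
  have h := map_sum (Derivation.coeFnAddMonoidHom (R := k) (A := L) (M := L)) E univ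
  have h1 := congrFun h f
  rw [Finset.sum_apply] at h1
  exact h1

theorem st_FLD : ST_FLD.{u} := by
  intro k K L _ _ _ _ _ _ _ _ _ n x d D hx hu hD v hv A hA
  classical
  by_contra hcon
  push Not at hcon
  have hcd : ∀ i j, ⁅d i, d j⁆ = 0 := fun i j => hu _ (fun l => by
    rw [Derivation.commutator_apply, hx, hx]
    split_ifs <;> simp)
  have hcd' : ∀ i j y, d i (d j y) = d j (d i y) := fun i j y => by
    have h := congrArg (fun e : Derivation k K K => e y) (hcd i j)
    simp only [Derivation.commutator_apply, Derivation.coe_zero, Pi.zero_apply] at h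
    exact sub_eq_zero.1 h
  have hcD : ∀ i j, Function.Commute (D i) (D j) := fun i j y => by
    have h0 : ⁅D i, D j⁆ = 0 := der_zero (K := K) _ (fun a => by
      rw [Derivation.commutator_apply, hD, hD, hD, hD, hcd' i j a, sub_self])
    have h := congrArg (fun e : Derivation k L L => e y) h0
    simp only [Derivation.commutator_apply, Derivation.coe_zero, Pi.zero_apply] at h
    exact sub_eq_zero.1 h
  obtain ⟨c, ec⟩ : ∃ c : Fin n → L, c = fun i => v (algebraMap K L (x i)) := ⟨_, rfl⟩
  have hvc : v = ∑ i, c i • D i := by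
    refine sub_eq_zero.1 (der_coord x hu (v - ∑ i, c i • D i) (fun i => ?_))
    rw [Derivation.sub_apply, der_sum]
    simp only [Derivation.smul_apply, hD, hx, smul_eq_mul, ec]
    simp
  have hv0 : ∃ i0, c i0 ≠ 0 := by
    by_contra hc
    push Not at hc
    apply hv
    rw [hvc]
    simp [hc]
  obtain ⟨i0, hi0⟩ := hv0
  have hrel : ∀ f, v f = 0 → D i0 f = ∑ l ∈ univ.erase i0, (-(c l / c i0)) * D l f := by
    intro f hf
    have h1 : v f = ∑ i, c i * D i f := by
      conv_lhs => rw [hvc]
      rw [der_sum]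
      simp only [Derivation.smul_apply, smul_eq_mul]
    rw [h1, ← Finset.add_sum_erase _ _ (mem_univ i0)] at hf
    have h2 : c i0 * D i0 f = -∑ l ∈ univ.erase i0, c l * D l f := by linear_combination hf
    have h3 : D i0 f = (-∑ l ∈ univ.erase i0, c l * D l f) / c i0 := by
      rw [← h2]
      field_simp
    rw [h3, neg_div, Finset.sum_div, ← Finset.sum_neg_distrib]
    refine sum_congr rfl fun l _ => ?_
    ring
  have hn : 1 ≤ n := by
    have := i0.isLt
    omega
  obtain ⟨m, hm⟩ : ∃ m, m = Module.finrank K L * n ^ n := ⟨_, rfl⟩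
  let M' : Submodule L ({f : L // v f = 0} → L) :=
    Submodule.span L (Set.range (uu D v i0 (n * m)))
  have hfin : Module.Finite L M' := Module.Finite.span_of_finite L (Set.finite_range _)
  have hrk : Module.finrank L M' ≤ (n * m + 1) ^ (n - 1) := by
    have h1 := finrank_range_le_card (R := L) (uu D v i0 (n * m))
    have h2 : Fintype.card ({i : Fin n // i ≠ i0} → Fin (n * m + 1)) = (n * m + 1) ^ (n - 1) := by
      rw [Fintype.card_fun, Fintype.card_fin]
      congr 1
      have := Set.card_ne_eq i0
      rw [Fintype.card_fin] at this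
      exact this
    rw [h2] at h1
    exact h1
  have hfK : Module.Finite K M' := Module.Finite.trans L M'
  have hrkK : Module.finrank K M' ≤ Module.finrank K L * (n * m + 1) ^ (n - 1) := by
    rw [← Module.finrank_mul_finrank K L M']
    exact Nat.mul_le_mul_left _ hrk
  have hsum : ∀ α : Fin n → Fin (m + 1), ∑ i, ((α i : ℕ)) ≤ n * m := by
    intro α
    calc ∑ i, (α i : ℕ) ≤ ∑ _i : Fin n, m := Finset.sum_le_sum fun i _ => by
          have := (α i).isLt
          omega
      _ = n * m := by simp
  have hmem : ∀ α : Fin n → Fin (m + 1),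
      (fun f : {f : L // v f = 0} => op D (fun i => (α i : ℕ)) f) ∈ M' := by
    intro α
    obtain ⟨T, hT, hT'⟩ := TT_op D i0 hcD v _ hrel _ (fun i => (α i : ℕ)) rfl
    have h1 := TT_res D v i0 (n * m) (TT_mono D i0 (hsum α) hT)
    have h2 : (fun f : {f : L // v f = 0} => op D (fun i => (α i : ℕ)) f) =
        fun f : {f : L // v f = 0} => T f := by
      funext f
      exact hT' f f.2
    rw [h2]
    exact h1
  let w : (Fin n → Fin (m + 1)) → M' := fun α => ⟨_, hmem α⟩
  have hdep : ¬ LinearIndependent K w := by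
    intro hli
    have h1 := hli.fintype_card_le_finrank
    rw [Fintype.card_fun, Fintype.card_fin, Fintype.card_fin] at h1
    have h2 := count_lt n _ m hn hm
    omega
  obtain ⟨p, hp, α0, hα0⟩ := Fintype.not_linearIndependent_iff.1 hdep
  have hp' : ∀ f : L, v f = 0 → ∑ α, p α • op D (fun i => (α i : ℕ)) f = 0 := by
    intro f hf
    have h1 := congrArg (fun g : M' => (g : {f : L // v f = 0} → L) ⟨f, hf⟩) hp
    simp only [Submodule.coe_sum, Submodule.coe_zero, Pi.zero_apply, Finset.sum_apply] at h1
    exact h1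
  have htr : ∀ i (f : L), Algebra.trace K L (D i f) = d i (Algebra.trace K L f) := fun i f =>
    trace_der (d i) (D i) (hD i) f
  -- the operator kills `A`
  let e : (Fin n → Fin (m + 1)) → (Fin n → ℕ) := fun α i => (α i : ℕ)
  have he : Function.Injective e := by
    intro α β h
    funext i
    exact Fin.ext (congrFun h i)
  let p' : (Fin n → ℕ) → K := Function.extend e p 0
  have hpp : ∀ y, ∑ β ∈ univ.image e, p' β * op d β y = ∑ α, p α * op d (e α) y := by
    intro y
    rw [sum_image (fun _ _ _ _ h => he h)]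
    refine sum_congr rfl fun α _ => ?_
    show Function.extend e p 0 (e α) * _ = _
    rw [he.extend_apply]
  have hkA : ∀ a ∈ A, ∑ β ∈ univ.image e, p' β * op d β a = 0 := by
    intro a ha
    obtain ⟨f, hf, hfa⟩ := hcon a ha
    rw [hpp, ← hfa]
    have h1 := congrArg (Algebra.trace K L) (hp' f hf)
    rw [map_sum, map_zero] at h1
    rw [← h1]
    refine sum_congr rfl fun α _ => ?_
    rw [map_smul, smul_eq_mul]
    congr 1
    exact (opl_lift d D htr (List.finRange n) (e α) f).symm
  obtain ⟨N, hN⟩ := ord_sum d (univ.image e) p'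
  have hall := ord_kill A hA N _ hN hkA
  have hz := op_indep d x hx (n * m) (univ.image e) p' (fun β hβ => by
    obtain ⟨α, _, rfl⟩ := mem_image.1 hβ
    exact hsum α) hall (e α0) (mem_image_of_mem _ (mem_univ _))
  have hz' : p' (e α0) = p α0 := he.extend_apply _ _ _
  exact hα0 (hz' ▸ hz)

end Pool.Agent.Helper72.DAK
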